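import Pool.Agent.H7.HDC.Tg
import Pool.Agent.H7.HDC.TRP
import Pool.Agent.H7.HD.NU

/-!
# MP_e37c09_lc: normal ultrafilters which contain a given set (module SSN)
-/

open Ordinal Cardinal Order Set
open scoped ZFSet

universe u

namespace Pool.Agent.H68.HDC.SSN

open _root_.HD Pool.Agent.H7.HDC.CL
open Pool.Agent.H4.HD.FU
open Pool.Agent.H7.HDC.TRP (cof_sp exists_clb)

/-- the sets of the family -/
def Yf (en : Ordinal.{u} → ZFSet.{u}) (M : Cardinal.{u}) (lam c : Ordinal.{u})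
    (x : Ordinal.{u} → Ordinal.{u} → Prop) (b a : Ordinal.{u}) : Prop :=
  a < lam ∧ ¬ Pos M.ord b {β | β ∈ E en c ∧ ¬ x β a}

theorem dr_Yf {en : Ordinal.{u} → ZFSet.{u}} (hen : EN en) (M : Cardinal.{u})
    (lam c : Ordinal.{u}) {x : Ordinal.{u} → Ordinal.{u} → Prop} (hx : DR x) :
    DR (Yf en M lam c x) := by
  have hE : DO fun w => w 0 ∈ E en c :=
    DO.sub c (R := fun c w => w 0 ∈ E en c) ((HD.All.ea en hen).1.ren
      (fun n => Nat.casesOn n 1 fun _ => 0))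
  refine DO.and (DO.ltc 1 lam) (DO.not ?_)
  refine DO.sub M.ord (R := fun m w => Pos m (w 0) {β | β ∈ E en c ∧ ¬ x β (w 1)}) ?_
  refine HD.All.da 0 1 (fun β w => β ∈ E en c ∧ ¬ x β (w 2)) ?_
  exact hE.and (hx.s2 0 3).not

/-- the values of `T` -/
theorem ds_X {en : Ordinal.{u} → ZFSet.{u}} (hen : EN en) (M : Cardinal.{u})
    (lam c : Ordinal.{u}) {y : Ordinal.{u} → Ordinal.{u} → Prop} (hy : DR y) {T : ZFSet.{u}}
    (hT : OD T) : DS {b | Pos M.ord b (E en c) ∧ os lam {a | y b a} ∈ T} := by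
  have hE : DO fun w : ℕ → Ordinal.{u} => w 0 ∈ E en c :=
    DO.sub c (R := fun c w => w 0 ∈ E en c) ((HD.All.ea en hen).1.ren
      (fun n => Nat.casesOn n 1 fun _ => 0))
  refine DO.and ?_ ?_
  · refine DO.sub (R := fun x w => Pos x (w 0) {a | a ∈ E en c}) M.ord ?_
    exact All.da 0 1 (fun a _ => a ∈ E en c) hE
  · obtain ⟨z, hz⟩ := (hen.od _).1 hT
    rw [← hz]
    exact DO.sub z (R := fun z w => os lam {i | y (w 0) i} ∈ en z)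
      ((do_mem hen hy lam).s2 (X := fun a b => os lam {i | y a i} ∈ en b) 1 0)

theorem not_pos_empty {μ ρ : Ordinal.{u}} (hρ : IsSuccLimit ρ) {X : Set Ordinal.{u}}
    (h : ∀ b, b ∉ X) : ¬ Pos μ ρ X := by
  intro hP
  obtain ⟨b, -, -, hb, -⟩ := hP univ (Pool.Agent.H7.HDC.CV.clb_univ hρ)
  exact h b hb

theorem clb_gt {ρ ζ : Ordinal.{u}} (hρ : IsSuccLimit ρ) (hζ : ζ < ρ) : Clb ρ {γ | ζ < γ} := by
  refine ⟨fun a ha => ⟨succ (max a ζ), hρ.succ_lt (max_lt ha hζ),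
    (le_max_left _ _).trans_lt (lt_succ _),
    show ζ < succ (max a ζ) from (le_max_right a ζ).trans_lt (lt_succ _)⟩,
    fun x _ h0 h => ?_⟩
  obtain ⟨z, hz, -, hzζ⟩ := h 0 h0
  exact lt_trans hzζ hz

/-- the normal ultrafilter `Uf` -/
theorem hsup_Uf {en : Ordinal.{u} → ZFSet.{u}} (hen : EN en) {M : Cardinal.{u}}
    {κ lam c : Ordinal.{u}} {x : Ordinal.{u} → Ordinal.{u} → Prop} (hcof : ℵ₀ < lam.cof)
    (hκ : lam.cof.ord = κ) (hc : Atom en M.ord lam c) (hfam : Fam en M κ lam c x)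
    (hno : NoF en M lam c x) : HSup κ lam (Uf en M.ord κ lam c x) := by
  have hVA := HD.All.va.{u}
  refine ⟨?_, ?_⟩
  · have h := Pool.Agent.H7.HD.NU.fine_Uf hen hcof hc hfam
    rwa [hκ] at h
  · intro f y hf hfn hU
    rw [mem_Uf] at hU
    obtain ⟨i, hi, hin⟩ := hno _ (Pool.Agent.H7.HD.NU.dr_val hf.od hfam.dr lam) (by
      intro hP
      refine hU.2.2 (hP.mono fun b hb hbE _ => ⟨hbE.1, fun h3 => ?_⟩)
      rw [ZFSet.mem_sep] at h3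
      obtain ⟨-, a, ha, hp⟩ := h3
      obtain ⟨i, hi, hxi, rfl⟩ := mem_os.1 ha
      exact hbE.2 ⟨i, hxi, hp⟩)
    refine ⟨i, hi, mem_Uf.2 ⟨fun z hz => (ZFSet.mem_sep.1 hz).1, ?_, fun h => ?_⟩⟩
    · refine OD.of_mem (P := fun v => v 0 ∈ PkHOD κ lam ∧ ZFSet.pair (v 0) i.toZFSet ∈ f) ?_
        fun v => ?_
      · refine (dz_pk κ lam 0).and ?_
        refine DZ.od (R := fun F v => ZFSet.pair (v 0) i.toZFSet ∈ F) hf.od ?_
        exact DZ.od (R := fun j v => ZFSet.pair (v 1) j ∈ v 0) (OD.ordinal i) (loc_pmem 2 0 1).dz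
      · rw [ZFSet.mem_sep]
    · refine null_union hVA hcof hfam.small hin (h.mono fun b hb hbE _ => ?_)
      by_cases h1 : os lam {i | x b i} ∈ PkHOD κ lam
      · exact Or.inr ⟨hbE.1, fun h2 => hbE.2 (ZFSet.mem_sep.2 ⟨h1, h2⟩)⟩
      · exact Or.inl ⟨hbE.1, h1⟩

/-- the family `y` agrees with the images of `f` -/
structure Agr (en : Ordinal.{u} → ZFSet.{u}) (f : Ordinal.{u} → Ordinal.{u}) (M : Cardinal.{u})
    (K : Cardinal.{u}) (lam c : Ordinal.{u}) (y : Ordinal.{u} → Ordinal.{u} → Prop)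
    (C : Set Ordinal.{u}) : Prop where
  dr : DR y
  clb : Clb K.ord C
  agr : ∀ γ ∈ C, γ < K.ord → ℵ₀ < γ.cof → Pos M.ord (sp f γ) (E en c) →
    ∀ a, ((∃ ζ < γ, f ζ = a) ↔ y (sp f γ) a)

theorem Agr.os {en : Ordinal.{u} → ZFSet.{u}} {f : Ordinal.{u} → Ordinal.{u}}
    {M K : Cardinal.{u}} {lam c : Ordinal.{u}} {y : Ordinal.{u} → Ordinal.{u} → Prop}
    {C : Set Ordinal.{u}} (h : Agr en f M K lam c y C) {γ : Ordinal.{u}} (hγ : γ ∈ C)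
    (hγK : γ < K.ord) (hγc : ℵ₀ < γ.cof) (hP : Pos M.ord (sp f γ) (E en c)) :
    os lam (f '' Iio γ) = os lam {a | y (sp f γ) a} := by
  ext z
  rw [mem_os, mem_os]
  refine exists_congr fun a => and_congr_right fun ha => and_congr_left fun _ => ?_
  exact h.agr γ hγ hγK hγc hP a

/-- the normal ultrafilter -/
theorem sup_of (hTRP : T_TRP.{u}) {en : Ordinal.{u} → ZFSet.{u}} (hen : EN en)
    {f : Ordinal.{u} → Ordinal.{u}}
    {D₁ M N K : Cardinal.{u}} {lam c : Ordinal.{u}} {y : Ordinal.{u} → Ordinal.{u} → Prop}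
    {C : Set Ordinal.{u}} (hD : GoodN D₁) (hN : N.IsRegular) (hN0 : ℵ₀ < N) (hND : N < D₁)
    (hK : K.IsRegular) (hDK : D₁ < K) (hcof : lam.cof = K) (hf : ∀ ζ < K.ord, f ζ < lam)
    (hon : ∀ a < lam, ∃ ζ < K.ord, f ζ = a) (hA : Agr en f M K lam c y C) {T : ZFSet.{u}}
    (hT : HOD T) (hTs : T ⊆ PkHOD K.ord lam)
    (hpos : Pos N.ord K.ord {γ | Pos M.ord (sp f γ) (E en c) ∧ os lam (f '' Iio γ) ∈ T}) :
    ∃ U, HSup K.ord lam U ∧ T ∈ U := by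
  have hK0 : ℵ₀ < K := hD.2.2.1.trans hDK
  have hKc : ℵ₀ < K.ord.cof := by rw [hK.cof_ord]; exact hK0
  have hKlim : IsSuccLimit K.ord := Cardinal.isSuccLimit_ord hK.aleph0_le
  have hlam : ℵ₀ < lam.cof := by rw [hcof]; exact hK0
  have hlim : IsSuccLimit lam := Ordinal.one_lt_cof_iff.1 (Cardinal.one_lt_aleph0.trans hlam)
  have hDl : D₁ < lam.cof := by rw [hcof]; exact hDK
  obtain ⟨Cs, hCs, hCs'⟩ := exists_clb hK hK0 hcof hf hon hA.clb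
  have hcf : ∀ {γ : Ordinal.{u}}, Cf N.ord γ → ℵ₀ < γ.cof := by
    intro γ h
    unfold Cf at h
    rw [Cardinal.ord_inj.1 h]
    exact hN0
  have htr := hTRP N K lam hK hK0 hcof hN f hf hon C hA.clb
  -- the set `X`
  set X : Set Ordinal.{u} := {b | Pos M.ord b (E en c) ∧ os lam {a | y b a} ∈ T} with hX
  have hXd : DS X := ds_X hen M lam c hA.dr hT.od
  have hXp : Pos N.ord lam X := by
    refine (htr X).2 fun D hD' => ?_
    obtain ⟨γ, h1, ⟨h2, h3⟩, ⟨h4, h5⟩, h6⟩ := hpos _ (Pool.Agent.H65.HD.clb_inter hKc hD' hCs)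
    obtain ⟨k1, k2, k3⟩ := hCs' γ h3 h1
    refine ⟨γ, h1, h2, ⟨k1, k2, ⟨h4, ?_⟩, cof_sp k3 k2⟩, h6⟩
    rw [← hA.os k1 h1 (hcf h6) h4]
    exact h5
  have hns : NSX D₁.ord N.ord lam := All.ha D₁.ord N.ord lam (hD.2.2.2 N hN hND lam hDl.le)
  obtain ⟨d, hdX, hd⟩ := All.hb2 en hen D₁ N lam hD.1 hD.2.1 hD.2.2.1 hN hND hDl hns X hXd hXp
  -- the family
  have hfam : Fam en N K.ord lam d y := by
    refine ⟨hA.dr, not_pos_empty hlim fun b hb => hb.2 (hTs (hdX hb.1).2), fun i hi hP => ?_⟩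
    obtain ⟨ζ, hζ, rfl⟩ := hon i hi
    obtain ⟨γ, h1, h2, ⟨h3, h4, h5, h6⟩, h7⟩ := (htr _).1 hP _ (clb_gt hKlim hζ)
    exact h5.2 ((hA.agr γ h3 h1 (hcf h7) (hdX h5.1).1 _).1 ⟨ζ, h2, rfl⟩)
  have hno : NoF en N lam d y := by
    intro R hR hnull
    have hP : Pos N.ord lam {β | β ∈ E en d ∧ ∃ i, y β i ∧ R β i} := by
      refine (pos_diff HD.All.va hlam hd.pos hnull).mono fun b _ hb _ => ⟨hb.1, ?_⟩
      by_contra h
      exact hb.2 ⟨hb.1, h⟩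
    have hP1 := (htr _).1 hP
    have hP2 : Pos N.ord K.ord {γ | γ < K.ord ∧ γ ∈ C ∧ IsSuccLimit γ ∧
        (sp f γ ∈ {β | β ∈ E en d ∧ ∃ i, y β i ∧ R β i}) ∧ (sp f γ).cof = γ.cof ∧
        Cf N.ord γ} := hP1.mono fun γ hγ h h' => ⟨hγ, h.1, h.2.1, h.2.2.1, h.2.2.2, h'⟩
    have hex : ∀ γ : Ordinal.{u}, ∃ ζ : Ordinal.{u}, (γ < K.ord ∧ γ ∈ C ∧ IsSuccLimit γ ∧
        (sp f γ ∈ {β | β ∈ E en d ∧ ∃ i, y β i ∧ R β i}) ∧ (sp f γ).cof = γ.cof ∧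
        Cf N.ord γ) → ζ < γ ∧ R (sp f γ) (f ζ) := by
      intro γ
      by_cases h : (γ < K.ord ∧ γ ∈ C ∧ IsSuccLimit γ ∧
        (sp f γ ∈ {β | β ∈ E en d ∧ ∃ i, y β i ∧ R β i}) ∧ (sp f γ).cof = γ.cof ∧
        Cf N.ord γ)
      · obtain ⟨h1, h2, h3, ⟨h4, i, h5, h6⟩, h7, h8⟩ := h
        obtain ⟨ζ, hζ, rfl⟩ := (hA.agr γ h2 h1 (hcf h8) (hdX h4).1 i).2 h5
        exact ⟨ζ, fun _ => ⟨hζ, h6⟩⟩
      · exact ⟨0, fun h' => absurd h' h⟩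
    choose h hh using hex
    obtain ⟨ζ, hζ, hζP⟩ := All.vd N.ord K hK hK0 _ h hP2 fun b hb _ _ => (hh b hb).1
    refine ⟨f ζ, hf ζ hζ, ?_⟩
    have hP3 : Pos N.ord lam {β | β ∈ E en d ∧ R β (f ζ)} := by
      refine (htr _).2 (hζP.mono fun γ hγ hg _ => ?_)
      obtain ⟨⟨h1, h2, h3, ⟨h4, h5⟩, h6, h7⟩, h8⟩ := hg
      refine ⟨h2, h3, ⟨h4, ?_⟩, h6⟩
      have h9 := (hh γ ⟨h1, h2, h3, ⟨h4, h5⟩, h6, h7⟩).2
      rw [h8] at h9
      exact h9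
    have hRd : DS {β | R β (f ζ)} :=
      DO.sub (f ζ) (R := fun j w => R (w 0) j) (DO.s2 (X := fun a b => R a b) hR 1 0)
    obtain ⟨e, he⟩ := (HD.All.ea en hen).2.2.1 _ hRd lam
    intro hQ
    refine hd.ult e ⟨hP3.mono fun b hb hbE _ => ⟨hbE.1, ?_⟩,
      hQ.mono fun b hb hbE _ => ⟨hbE.1, fun h5 => ?_⟩⟩
    · rw [he]
      exact ⟨hbE.2, hb⟩
    · rw [he] at h5
      exact hbE.2 h5.1
  have hκ : lam.cof.ord = K.ord := by rw [hcof]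
  refine ⟨_, hsup_Uf hen hlam hκ hd hfam hno, mem_Uf.2 ⟨hTs, hT.od,
    not_pos_empty hlim fun b hb => hb.2 (hdX hb.1).2⟩⟩

theorem X (hTRP : T_TRP.{u}) : T_SSN.{u} := by
  intro D₀ D₁ M K lam hD hD1 hDD hM hMD hK hDK hreg hKl hcof hτ f hf hon T hT hTs hstat
  have hD0K : D₀ < K := hDD.trans hDK
  have hDl : D₀ < lam.cof := by rw [hcof]; exact hD0K
  have hK0 : ℵ₀ < K := hD.2.2.1.trans hD0K
  have hlam : ℵ₀ < lam.cof := by rw [hcof]; exact hK0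
  have hKlim : IsSuccLimit K.ord := Cardinal.isSuccLimit_ord hK.aleph0_le
  obtain ⟨en, hen⟩ := All.en.{u}
  have hns : NSX D₀.ord M.ord lam := All.ha D₀.ord M.ord lam (hD.2.2.2 M hM hMD lam hDl.le)
  have hex : ∀ X : Set Ordinal.{u}, DS X → Pos M.ord lam X → ∃ c, E en c ⊆ X ∧
      Atom en M.ord lam c := fun X hX hP =>
    All.hb2 en hen D₀ M lam hD.1 hD.2.1 hD.2.2.1 hM hMD hDl hns X hX hP
  obtain ⟨I, hIds, hIfew, hIat, hInull⟩ := Pool.Agent.H12.HD.ZA.X All.ea All.da All.db All.va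
    All.vh en hen D₀ M lam hD.1 hD.2.2.1 hM hMD hDl hns hex
  obtain ⟨A, hA⟩ := All.ca M K.ord lam hM hKl hτ
  have h1 : ∀ c : Ordinal.{u}, ∃ (y : Ordinal.{u} → Ordinal.{u} → Prop) (C : Set Ordinal.{u}),
      Clb K.ord C ∧ (c ∈ I → Agr en f M K lam c y C) := by
    intro c
    by_cases hc : c ∈ I
    · obtain ⟨x, hx⟩ := All.ke en hen M K.ord lam c A hM hlam (hIat c hc) hreg hKl hA
      obtain ⟨C, hC, hC'⟩ := club_one hK hK0 hcof hf hon hx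
      refine ⟨Yf en M lam c x, C, hC, fun _ => ⟨dr_Yf hen M lam c hx.dr, hC,
        fun γ hγ hγK hγc hP a => ?_⟩⟩
      unfold Yf
      constructor
      · rintro ⟨ζ, hζ, rfl⟩
        have h := hf ζ (hζ.trans hγK)
        exact ⟨h, (hC' γ hγ hγK hγc hP _ h).1 ⟨ζ, hζ, rfl⟩⟩
      · rintro ⟨h, h'⟩
        exact (hC' γ hγ hγK hγc hP a h).2 h'
    · exact ⟨fun _ _ => True, univ, Pool.Agent.H7.HDC.CV.clb_univ hKlim, fun h => absurd h hc⟩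
  choose y C hC hC' using h1
  by_contra hno
  -- no positive set
  have hnp : ∀ c ∈ I, ∀ N : Cardinal.{u}, N.IsRegular → D₀ ≤ N → N < D₁ →
      ¬ Pos N.ord K.ord {γ | Pos M.ord (sp f γ) (E en c) ∧ os lam (f '' Iio γ) ∈ T} := by
    intro c hc N hN hDN hND hP
    exact hno (sup_of hTRP hen hD1 hN (hD.2.2.1.trans_le hDN) hND hK hDK hcof hf hon (hC' c hc)
      hT hTs hP)
  obtain ⟨τ, hτD, e, he⟩ := hIfew
  have h2 : ∀ i ν : Ordinal.{u}, ∃ C' : Set Ordinal.{u}, Clb K.ord C' ∧ (e i ∈ I →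
      ∀ N : Cardinal.{u}, N.IsRegular → D₀ ≤ N → N < D₁ → ν = N.ord → ∀ γ < K.ord, γ ∈ C' →
      Cf ν γ → Pos M.ord (sp f γ) (E en (e i)) → os lam (f '' Iio γ) ∉ T) := by
    intro i ν
    by_cases h : e i ∈ I ∧ ∃ N : Cardinal.{u}, N.IsRegular ∧ D₀ ≤ N ∧ N < D₁ ∧ ν = N.ord
    · obtain ⟨h3, N, h4, h5, h6, rfl⟩ := h
      have h7 := hnp _ h3 N h4 h5 h6
      unfold Pos at h7
      push Not at h7
      obtain ⟨C', h8, h9⟩ := h7
      refine ⟨C', h8, fun _ N' _ _ _ _ γ g1 g2 g3 g4 g5 => ?_⟩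
      exact h9 γ g1 g2 ⟨g4, g5⟩ g3
    · refine ⟨univ, Pool.Agent.H7.HDC.CV.clb_univ hKlim, fun h3 N h4 h5 h6 h7 => ?_⟩
      exact absurd ⟨h3, N, h4, h5, h6, h7⟩ h
  choose Cn hCn hCn' using h2
  have hKc : ℵ₀ < K.ord.cof := by rw [hK.cof_ord]; exact hK0
  have hC1 : ∀ ν : Ordinal.{u}, Clb K.ord {x | ∀ i < D₀.ord, x ∈ Cn i ν} := fun ν =>
    Pool.Agent.H77.HD9.NP.clb_inter (D := D₀) (lam := K.ord) hKc (by rw [hK.cof_ord]; exact hD0K)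
      (fun i => Cn i ν) fun i => hCn i ν
  have hC2 := Pool.Agent.H77.HD9.NP.clb_inter (D := D₁) (lam := K.ord) hKc
    (by rw [hK.cof_ord]; exact hDK) (fun ν => {x | ∀ i < D₀.ord, x ∈ Cn i ν}) hC1
  obtain ⟨C3, hC3, hC3'⟩ := null_sp hK hK0 hcof hf hon hInull
  obtain ⟨C4, hC4, hC4'⟩ := cp_club hK hK0 hcof hf hon (Pool.Agent.H7.HDC.CV.clb_univ (ρ := lam)
    (Ordinal.one_lt_cof_iff.1 (Cardinal.one_lt_aleph0.trans hlam)))
  obtain ⟨γ, ⟨k1, k2, k3⟩, hγK, hγD, hγD1, hγT⟩ := hstat _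
    (Pool.Agent.H65.HD.clb_inter hKc hC2 (Pool.Agent.H65.HD.clb_inter hKc hC3 hC4))
  have hγD' : D₀ ≤ γ.cof := Cardinal.ord_le_ord.1 hγD
  have hγ0 : ℵ₀ < γ.cof := hD.2.2.1.trans_le hγD'
  have hlim : IsSuccLimit γ := Ordinal.one_lt_cof_iff.1 (Cardinal.one_lt_aleph0.trans hγ0)
  have hcp := hC4' γ k3 hγK
  have hsD : D₀ ≤ (sp f γ).cof := hγD'.trans (le_cof_sp hcp hlim)
  have hsc : ℵ₀ < (sp f γ).cof := hγ0.trans_le (le_cof_sp hcp hlim)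
  -- an atom which is positive
  have hc : ∃ c ∈ I, Pos M.ord (sp f γ) (E en c) := by
    by_contra hcon
    push Not at hcon
    have h2 := HD.All.va M.ord (sp f γ) hsc τ ((Cardinal.lt_ord.1 hτD).trans_le hsD)
      (fun i => {b | e i ∈ I ∧ b ∈ E en (e i)}) (fun i _ hP => by
        by_cases hi : e i ∈ I
        · exact hcon (e i) hi (Pos.mono hP fun _ _ h _ => h.2)
        · obtain ⟨b, -, -, h, -⟩ := hP univ (Pool.Agent.H7.HDC.CV.clb_univ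
            (Ordinal.one_lt_cof_iff.1 (Cardinal.one_lt_aleph0.trans hsc)))
          exact hi h.1)
    have h3 := null_union HD.All.va hsc h2 (hC3' γ k2 hγK hlim)
    refine h3 (Pos.mono (All.vc M (sp f γ) hM (hMD.trans_le hsD)) fun b _ _ _ => ?_)
    by_cases hb : ∃ c ∈ I, b ∈ E en c
    · obtain ⟨c, hcI, hbc⟩ := hb
      obtain ⟨i, hi, rfl⟩ := he c hcI
      exact Or.inl ⟨i, hi, hcI, hbc⟩
    · push Not at hb
      exact Or.inr hb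
  obtain ⟨c, hcI, hcP⟩ := hc
  obtain ⟨i, hi, rfl⟩ := he c hcI
  have hNreg : γ.cof.IsRegular := Cardinal.isRegular_cof hlim
  exact hCn' i γ.cof.ord hcI γ.cof hNreg hγD' (Cardinal.ord_lt_ord.1 hγD1) rfl γ hγK
    (k1 _ hγD1 i (hi.trans hτD)) rfl hcP hγT

end Pool.Agent.H68.HDC.SSN
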